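import Mathlib

set_option autoImplicit false
set_option synthInstance.maxSize 2000

namespace Pool.Agent.Results.MP_e74e46_co.Counter

open Finset

variable {n m : ℕ}

/-- The bundle of agent `i` when good `g` goes to agent `A g`. -/
def bundle (A : Fin m → Fin n) (i : Fin n) : Finset (Fin m) := {g | A g = i}

/-- Envy-freeness up to one good for additive valuations. -/
def EF1 (w : Fin n → Fin m → ℝ) (A : Fin m → Fin n) : Prop :=
  ∀ i j, bundle A j = ∅ ∨
    ∃ g ∈ bundle A j, ∑ x ∈ (bundle A j).erase g, w i x ≤ ∑ x ∈ bundle A i, w i x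

/-- Pareto optimality among allocations. -/
def PO (u : Fin n → Fin m → ℝ) (A : Fin m → Fin n) : Prop :=
  ¬∃ B : Fin m → Fin n, (∀ i, ∑ x ∈ bundle A i, u i x ≤ ∑ x ∈ bundle B i, u i x) ∧
    ∃ i, ∑ x ∈ bundle A i, u i x < ∑ x ∈ bundle B i, u i x

/-- Every bundle has `⌊m/n⌋` or `⌈m/n⌉` goods. -/
def Balanced (A : Fin m → Fin n) : Prop :=
  ∀ i, #(bundle A i) = m / n ∨ #(bundle A i) = (m + n - 1) / n

def u : Fin 2 → Fin 8 → ℕ := ![![85, 3, 2, 99, 2, 26, 2, 89], ![3, 1, 1, 4, 1, 2, 1, 3]]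

/-- An instance in which no EF1 and PO allocation is balanced or EF1 for the reference valuation. -/
theorem result : ∃ (n m : ℕ) (u : Fin n → Fin m → ℝ) (v : Fin m → ℝ), 2 ≤ n ∧
    (∀ i g, 0 < u i g) ∧ (∀ g, 0 ≤ v g) ∧
    ∀ A : Fin m → Fin n, EF1 u A → PO u A → ¬EF1 (fun _ => v) A ∧ ¬Balanced A := by
  refine ⟨2, 8, fun i g => u i g, fun _ => (1 : ℕ), le_rfl,
    fun i g => Nat.cast_pos.2 ((by decide : ∀ i g, 0 < u i g) i g), fun g => by positivity, ?_⟩
  simp only [EF1, PO, Balanced, ← Nat.cast_sum, Nat.cast_le, Nat.cast_lt]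
  decide +kernel

end Pool.Agent.Results.MP_e74e46_co.Counter
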